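import Mathlib
import Pool.Agent.TH298.Sch.Circ

/-!
Truncated Bessel comparison function for `n = 2` up to `S = 6.57` (job 3576).
-/

set_option autoImplicit false

namespace Pool.Agent.TH45.J3576

open Pool.Agent.TH298.Sch Real

theorem comp_two' {S : ℝ} (hS : S ≤ 6.57) : ∃ z z1 z2 : ℝ → ℝ, Comp 2 S z z1 z2 := by
  refine ⟨fun s => 1 - s / 3 + s ^ 2 / 24 - s ^ 3 / 360 + s ^ 4 / 8640 - s ^ 5 / 302400 +
      s ^ 6 / 14515200 - s ^ 7 / 914457600,
    fun s => -1 / 3 + s / 12 - s ^ 2 / 120 + s ^ 3 / 2160 - s ^ 4 / 60480 +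
      s ^ 5 / 2419200 - s ^ 6 / 130636800,
    fun s => 1 / 12 - s / 60 + s ^ 2 / 720 - s ^ 3 / 15120 + s ^ 4 / 483840 - s ^ 5 / 21772800,
    ?_, ?_, ?_, ?_⟩
  · intro s
    have h := ((((((((hasDerivAt_const s (1 : ℝ)).sub ((hasDerivAt_id s).div_const 3)).add
      (((hasDerivAt_id s).pow 2).div_const 24)).sub (((hasDerivAt_id s).pow 3).div_const 360)).add
      (((hasDerivAt_id s).pow 4).div_const 8640)).sub
      (((hasDerivAt_id s).pow 5).div_const 302400)).add
      (((hasDerivAt_id s).pow 6).div_const 14515200)).sub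
      (((hasDerivAt_id s).pow 7).div_const 914457600))
    refine h.congr_deriv ?_
    simp only [id_eq]
    push_cast
    ring
  · intro s
    have h := (((((((hasDerivAt_const s (-1 / 3 : ℝ)).add ((hasDerivAt_id s).div_const 12)).sub
      (((hasDerivAt_id s).pow 2).div_const 120)).add (((hasDerivAt_id s).pow 3).div_const 2160)).sub
      (((hasDerivAt_id s).pow 4).div_const 60480)).add
      (((hasDerivAt_id s).pow 5).div_const 2419200)).sub
      (((hasDerivAt_id s).pow 6).div_const 130636800))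
    refine h.congr_deriv ?_
    simp only [id_eq]
    push_cast
    ring
  · intro s hs
    obtain ⟨t, ht⟩ : ∃ t, t = 6.57 - s := ⟨_, rfl⟩
    have ht0 : 0 ≤ t := by linarith [hs.2]
    have hst : s = 657 / 100 - t := by linarith
    have e : 1 - s / 3 + s ^ 2 / 24 - s ^ 3 / 360 + s ^ 4 / 8640 - s ^ 5 / 302400 +
      s ^ 6 / 14515200 - s ^ 7 / 914457600 =
        114116411595774883 / 125440000000000000000 +
        21832045079759443 / 537600000000000000 * t +
        49236246453203 / 5376000000000000 * t ^ 2 +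
        27226666721 / 32256000000000 * t ^ 3 +
        39541441 / 967680000000 * t ^ 4 +
        76561 / 48384000000 * t ^ 5 +
        1 / 53760000 * t ^ 6 +
        1 / 914457600 * t ^ 7 := by
      rw [hst]
      ring
    rw [e]
    positivity
  · intro s hs
    have e : s * (1 / 12 - s / 60 + s ^ 2 / 720 - s ^ 3 / 15120 + s ^ 4 / 483840 -
        s ^ 5 / 21772800) + ((2 : ℕ) + 1) * (-1 / 3 + s / 12 - s ^ 2 / 120 + s ^ 3 / 2160 -
        s ^ 4 / 60480 + s ^ 5 / 2419200 - s ^ 6 / 130636800) +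
        (1 - s / 3 + s ^ 2 / 24 - s ^ 3 / 360 + s ^ 4 / 8640 - s ^ 5 / 302400 +
        s ^ 6 / 14515200 - s ^ 7 / 914457600) = -(s ^ 7 / 914457600) := by
      push_cast
      ring
    rw [e]
    have := pow_nonneg hs.1 7
    linarith

end Pool.Agent.TH45.J3576
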