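import Mathlib
import Pool.Agent.TH279.UP.Defs4
import Pool.Agent.TH238.QP.Param

/-!
# Job 3512: the Gauss map of a smooth hypersurface is birational, explicit inverse
-/

set_option autoImplicit false

open MvPolynomial Pool.Agent.TH279.UP

namespace Pool.Agent.TH45.J3512

lemma pd_comm {σ : Type*} (i j : σ) (F : MvPolynomial σ ℂ) :
    pderiv i (pderiv j F) = pderiv j (pderiv i F) := by
  classical
  have h : ⁅(pderiv i : Derivation ℂ (MvPolynomial σ ℂ) (MvPolynomial σ ℂ)),
      (pderiv j : Derivation ℂ (MvPolynomial σ ℂ) (MvPolynomial σ ℂ))⁆ = 0 := by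
    apply MvPolynomial.derivation_ext
    intro k
    rw [Derivation.commutator_apply, pderiv_X, pderiv_X]
    simp only [Pi.single_apply]
    split_ifs <;> simp
  have h2 := congrArg (fun D => D F) h
  simpa [Derivation.commutator_apply, sub_eq_zero] using h2

/-- scaling of a form -/
lemma aeval_scale {σ A : Type*} [CommRing A] [Algebra ℂ A] {D : ℕ} (P : MvPolynomial σ ℂ)
    (hP : P.IsHomogeneous D) (c : A) (x : σ → A) :
    aeval (fun j => c * x j) P = c ^ D * aeval x P := by
  rw [aeval_def, aeval_def, eval₂_eq, eval₂_eq, Finset.mul_sum]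
  apply Finset.sum_congr rfl
  intro m hm
  have h1 : ∑ i ∈ m.support, m i = D := by
    have := hP (mem_support_iff.1 hm)
    rw [← this, Finsupp.weight_apply, Finsupp.sum]
    simp
  have h2 : ∏ i ∈ m.support, (c * x i) ^ m i = c ^ D * ∏ i ∈ m.support, x i ^ m i := by
    rw [← h1, ← Finset.prod_pow_eq_pow_sum, ← Finset.prod_mul_distrib]
    apply Finset.prod_congr rfl
    intro i _
    rw [mul_pow]
  rw [h2]
  ring

variable {n d r : ℕ} {F R : MvPolynomial (Fin (n + 1 + 1)) ℂ}

lemma not_dvd_of_deg (hF : F.IsHomogeneous d) (hF0 : F ≠ 0) {G : MvPolynomial (Fin (n + 1 + 1)) ℂ}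
    (hG : G ≠ 0) (hd : G.totalDegree < d) : ¬ F ∣ G := by
  rintro ⟨H, rfl⟩
  have hH : H ≠ 0 := right_ne_zero_of_mul hG
  rw [totalDegree_mul_of_isDomain hF0 hH, hF.totalDegree hF0] at hd
  omega

lemma pd0_ne (hd : 2 ≤ d) (hF : F.IsHomogeneous d) (hs : Smooth F) : pderiv 0 F ≠ 0 := by
  intro h0
  have h1 : (Pi.single 0 1 : Fin (n + 1 + 1) → ℂ) = 0 := by
    apply hs
    intro i
    have h2 : (pderiv i F).IsHomogeneous (d - 1) := hF.pderiv
    have h3 := h2.sum_X_mul_pderiv
    have h4 := congrArg (eval (Pi.single 0 1 : Fin (n + 1 + 1) → ℂ)) h3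
    rw [map_sum, Finset.sum_eq_single (0 : Fin (n + 1 + 1))] at h4
    · rw [pd_comm, h0, map_zero, mul_zero, map_zero, map_nsmul] at h4
      have h5 : ((d - 1 : ℕ) : ℂ) ≠ 0 := by
        have : d - 1 ≠ 0 := by omega
        exact_mod_cast this
      rw [nsmul_eq_mul] at h4
      rcases mul_eq_zero.1 h4.symm with h6 | h6
      · exact absurd h6 h5
      · exact h6
    · intro b _ hb
      rw [map_mul, eval_X, Pi.single_apply, if_neg hb, zero_mul]
    · intro h
      exact absurd (Finset.mem_univ _) h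
  have h7 := congrFun h1 0
  rw [Pi.single_apply, if_pos rfl] at h7
  exact one_ne_zero h7

/-- the fundamental congruence -/
lemma cong (hE : Eqn n d r F R) (hh : ¬ F ∣ hess n F) (E : MvPolynomial (Fin (n + 1 + 1)) ℂ)
    (hR : gr n F R = F * E) (j : Fin (n + 1 + 1)) :
    F ∣ ((d - 1 : ℕ) : MvPolynomial (Fin (n + 1 + 1)) ℂ) * gr n F (pderiv j R) - E * X j := by
  classical
  have hp : Prime F := hE.irr.prime
  set M : Matrix (Fin (n + 1 + 1)) (Fin (n + 1 + 1)) (MvPolynomial (Fin (n + 1 + 1)) ℂ) :=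
    Matrix.of fun i j => pderiv i (pderiv j F) with hM
  set v : Fin (n + 1 + 1) → MvPolynomial (Fin (n + 1 + 1)) ℂ := fun j =>
    ((d - 1 : ℕ) : MvPolynomial (Fin (n + 1 + 1)) ℂ) * gr n F (pderiv j R) - E * X j with hv
  set w : Fin (n + 1 + 1) → MvPolynomial (Fin (n + 1 + 1)) ℂ := fun i =>
    ((d - 1 : ℕ) : MvPolynomial (Fin (n + 1 + 1)) ℂ) * pderiv i E with hw
  have h1 : M.mulVec v = F • w := by
    funext i
    have h2 : pderiv i (gr n F R) = ∑ j, gr n F (pderiv j R) * pderiv i (pderiv j F) :=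
      Pool.Agent.TH238.QP.chain (pderiv i) (fun j => pderiv j F) R
    have h3 : pderiv i (F * E) = pderiv i F * E + F * pderiv i E := pderiv_mul
    have h4 : ∑ j, X j * pderiv j (pderiv i F) = (d - 1) • pderiv i F :=
      (hE.hom.pderiv (i := i)).sum_X_mul_pderiv
    have h5 : ∑ j, E * X j * pderiv i (pderiv j F) =
        E * (((d - 1 : ℕ) : MvPolynomial (Fin (n + 1 + 1)) ℂ) * pderiv i F) := by
      rw [← nsmul_eq_mul, ← h4, Finset.mul_sum]
      apply Finset.sum_congr rfl
      intro j _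
      rw [pd_comm i j]
      ring
    calc M.mulVec v i = ∑ j, pderiv i (pderiv j F) * v j := rfl
      _ = ((d - 1 : ℕ) : MvPolynomial (Fin (n + 1 + 1)) ℂ) *
            (∑ j, gr n F (pderiv j R) * pderiv i (pderiv j F)) -
            ∑ j, E * X j * pderiv i (pderiv j F) := by
          rw [Finset.mul_sum, ← Finset.sum_sub_distrib]
          apply Finset.sum_congr rfl
          intro j _
          simp only [hv]
          ring
      _ = F * w i := by
          rw [← h2, hR, h3, h5]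
          simp only [hw]
          ring
      _ = (F • w) i := rfl
  have h6 : hess n F * v j = F * (M.adjugate.mulVec w) j := by
    have h7 : M.adjugate.mulVec (M.mulVec v) = M.det • v := by
      rw [Matrix.mulVec_mulVec, Matrix.adjugate_mul, Matrix.smul_mulVec, Matrix.one_mulVec]
    rw [h1, Matrix.mulVec_smul] at h7
    have h8 := congrFun h7 j
    simp only [Pi.smul_apply, smul_eq_mul] at h8
    rw [h8]
    rfl
  have h9 : F ∣ hess n F * v j := ⟨_, h6⟩
  exact (hp.dvd_mul.1 h9).resolve_left hh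

lemma r_pos (hE : Eqn n d r F R) : 1 ≤ r := by
  by_contra h
  have h0 : r = 0 := by omega
  subst h0
  have h1 := hE.homR
  rw [← totalDegree_zero_iff_isHomogeneous, totalDegree_eq_zero_iff_eq_C] at h1
  have h2 := hE.dvd
  rw [h1] at h2
  have h3 : gr n F (C (coeff 0 R)) = C (coeff 0 R) := by
    unfold gr
    rw [aeval_C]
    rfl
  rw [h3] at h2
  have h4 : coeff 0 R ≠ 0 := by
    intro h5
    apply hE.ne
    rw [h1, h5, C_0]
  have h5 : IsUnit (C (coeff 0 R) : MvPolynomial (Fin (n + 1 + 1)) ℂ) :=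
    (isUnit_iff_ne_zero.2 h4).map C
  exact hE.irr.not_isUnit (isUnit_of_dvd_unit h2 h5)

lemma exists_pd (hE : Eqn n d r F R) : ∃ j, pderiv j R ≠ 0 := by
  by_contra h
  push Not at h
  have h1 := hE.homR.sum_X_mul_pderiv
  rw [Finset.sum_eq_zero (fun j _ => by rw [h j, mul_zero])] at h1
  have h2 : (r : MvPolynomial (Fin (n + 1 + 1)) ℂ) ≠ 0 := by
    have := r_pos hE
    have h3 : r ≠ 0 := by omega
    exact_mod_cast h3
  rw [nsmul_eq_mul] at h1
  rcases mul_eq_zero.1 h1.symm with h3 | h3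
  · exact h2 h3
  · exact hE.ne h3

lemma natC_ne (hd : 2 ≤ d) : ((d - 1 : ℕ) : ℂ) ≠ 0 := by
  have : d - 1 ≠ 0 := by omega
  exact_mod_cast this

lemma dvd_natC (hd : 2 ≤ d) {G : MvPolynomial (Fin (n + 1 + 1)) ℂ}
    (h : F ∣ ((d - 1 : ℕ) : MvPolynomial (Fin (n + 1 + 1)) ℂ) * G) : F ∣ G := by
  have h1 : C ((((d - 1 : ℕ) : ℂ))⁻¹) * (((d - 1 : ℕ) : MvPolynomial (Fin (n + 1 + 1)) ℂ) * G) = G := by
    rw [← mul_assoc]
    have h2 : ((d - 1 : ℕ) : MvPolynomial (Fin (n + 1 + 1)) ℂ) = C (((d - 1 : ℕ) : ℂ)) := by simp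
    rw [h2, ← C_mul, inv_mul_cancel₀ (natC_ne hd), C_1, one_mul]
  rw [← h1]
  exact Dvd.dvd.mul_left h _

lemma E_ndvd (hE : Eqn n d r F R) (hh : ¬ F ∣ hess n F) (E : MvPolynomial (Fin (n + 1 + 1)) ℂ)
    (hR : gr n F R = F * E) : ¬ F ∣ E := by
  intro h
  obtain ⟨j, hj⟩ := exists_pd hE
  have h1 := cong hE hh E hR j
  have h2 : F ∣ ((d - 1 : ℕ) : MvPolynomial (Fin (n + 1 + 1)) ℂ) * gr n F (pderiv j R) := by
    have h3 : F ∣ E * X j := Dvd.dvd.mul_right h _
    have := dvd_add h1 h3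
    rwa [sub_add_cancel] at this
  have h4 := dvd_natC hE.two_le h2
  exact hj (hE.min (r - 1) (by have := r_pos hE; omega) _ hE.homR.pderiv h4)

lemma X_ndvd (hE : Eqn n d r F R) (j : Fin (n + 1 + 1)) : ¬ F ∣ X j := by
  apply not_dvd_of_deg hE.hom hE.irr.ne_zero (X_ne_zero j)
  rw [totalDegree_X]
  have := hE.two_le
  omega

theorem BIR : S_BIR := by
  intro n d r F R hE hh
  have hp : Prime F := hE.irr.prime
  obtain ⟨E, hR⟩ := hE.dvd
  have hE0 := E_ndvd hE hh E hR
  have hcong := cong hE hh E hR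
  refine ⟨fun j hj => ?_, ?_⟩
  · have h1 : F ∣ E * X j := by
      have h2 : F ∣ ((d - 1 : ℕ) : MvPolynomial (Fin (n + 1 + 1)) ℂ) * gr n F (pderiv j R) :=
        Dvd.dvd.mul_left hj _
      have := dvd_sub h2 (hcong j)
      rwa [sub_sub_cancel] at this
    rcases hp.dvd_or_dvd h1 with h2 | h2
    · exact hE0 h2
    · exact X_ndvd hE j h2
  · set W : Fin (n + 1 + 1) → MvPolynomial (Fin (n + 1 + 1)) ℂ := fun j => pderiv j R with hW
    set I : Ideal (MvPolynomial (Fin (n + 1 + 1)) ℂ) := Ideal.span {F} with hI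
    set π : MvPolynomial (Fin (n + 1 + 1)) ℂ →ₐ[ℂ] (MvPolynomial (Fin (n + 1 + 1)) ℂ ⧸ I) :=
      Ideal.Quotient.mkₐ ℂ I with hπ
    have hπ0 : ∀ G, π G = 0 ↔ F ∣ G := by
      intro G
      rw [hπ, Ideal.Quotient.mkₐ_eq_mk, Ideal.Quotient.eq_zero_iff_mem, hI,
        Ideal.mem_span_singleton]
    set e : MvPolynomial (Fin (n + 1 + 1)) ℂ := C ((((d - 1 : ℕ) : ℂ))⁻¹) * E with he
    have hW1 : ∀ j, π (gr n F (W j)) = π e * π (X j) := by
      intro j
      rw [← map_mul, ← sub_eq_zero, ← map_sub, hπ0]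
      apply dvd_natC hE.two_le
      have h1 : ((d - 1 : ℕ) : MvPolynomial (Fin (n + 1 + 1)) ℂ) * (gr n F (W j) - e * X j) =
          ((d - 1 : ℕ) : MvPolynomial (Fin (n + 1 + 1)) ℂ) * gr n F (pderiv j R) - E * X j := by
        have h2 : ((d - 1 : ℕ) : MvPolynomial (Fin (n + 1 + 1)) ℂ) = C (((d - 1 : ℕ) : ℂ)) := by simp
        have h3 : ((d - 1 : ℕ) : MvPolynomial (Fin (n + 1 + 1)) ℂ) * e = E := by
          rw [he, h2, ← mul_assoc, ← C_mul, mul_inv_cancel₀ (natC_ne hE.two_le), C_1, one_mul]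
        rw [mul_sub, ← mul_assoc, h3]
      rw [h1]
      exact hcong j
    have hgen : ∀ (D : ℕ) (P : MvPolynomial (Fin (n + 1 + 1)) ℂ), P.IsHomogeneous D →
        π (gr n F (aeval W P)) = π e ^ D * π P := by
      intro D P hP
      have h1 : π (gr n F (aeval W P)) = aeval (fun j => π (gr n F (W j))) P := by
        have h2 : (π.comp ((gr n F).comp (aeval W))) = aeval (fun j => π (gr n F (W j))) := by
          apply MvPolynomial.algHom_ext
          intro j
          simp
        exact congrArg (fun φ => φ P) h2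
      rw [h1]
      simp only [hW1]
      rw [aeval_scale P hP]
      congr 1
      have h3 : (aeval (fun j => π (X j)) : MvPolynomial (Fin (n + 1 + 1)) ℂ →ₐ[ℂ] _) = π := by
        apply MvPolynomial.algHom_ext
        intro j
        simp
      rw [h3]
    have hs : (aeval W (pderiv 0 F)).IsHomogeneous ((r - 1) * (d - 1)) :=
      (hE.hom.pderiv (i := 0)).aeval W (fun j => hE.homR.pderiv)
    refine ⟨(r - 1) * (d - 1), aeval W (pderiv 0 F), hs, ?_, ?_⟩
    · rw [← hπ0, hgen (d - 1) _ (hE.hom.pderiv), ← map_pow, ← map_mul, hπ0]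
      intro h
      rcases hp.dvd_or_dvd h with h1 | h1
      · have h2 := hp.dvd_of_dvd_pow h1
        rw [he] at h2
        apply hE0
        rcases hp.dvd_or_dvd h2 with h3 | h3
        · exfalso
          have h5 : IsUnit (C ((((d - 1 : ℕ) : ℂ))⁻¹) : MvPolynomial (Fin (n + 1 + 1)) ℂ) :=
            (isUnit_iff_ne_zero.2 (inv_ne_zero (natC_ne hE.two_le))).map C
          exact hE.irr.not_isUnit (isUnit_of_dvd_unit h3 h5)
        · exact h3
      · revert h1
        have h2 := pd0_ne hE.two_le hE.hom hE.smooth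
        apply not_dvd_of_deg hE.hom hE.irr.ne_zero h2
        rw [(hE.hom.pderiv (i := 0)).totalDegree h2]
        have := hE.two_le
        omega
    · intro k P hP
      refine ⟨aeval W P * X 0 ^ k, ?_, ?_⟩
      · have h1 : (aeval W P).IsHomogeneous ((r - 1) * ((d - 1) * k)) :=
          hP.aeval W (fun j => hE.homR.pderiv)
        have h2 : (X 0 ^ k : MvPolynomial (Fin (n + 1 + 1)) ℂ).IsHomogeneous k := by
          have := (isHomogeneous_X ℂ (0 : Fin (n + 1 + 1))).pow k
          rwa [one_mul] at this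
        have h3 := h1.mul h2
        have h4 : (r - 1) * ((d - 1) * k) + k = ((r - 1) * (d - 1) + 1) * k := by ring
        rwa [h4] at h3
      · have h1 : gr n F (X 0) = pderiv 0 F := by
          unfold gr
          rw [aeval_X]
        have h2 : π (gr n F (aeval W (pderiv 0 F)) ^ k * P) =
            (π e ^ (d - 1) * π (pderiv 0 F)) ^ k * π P := by
          rw [map_mul π, map_pow π, hgen (d - 1) _ (hE.hom.pderiv)]
        have h3 : π (gr n F (aeval W P * X 0 ^ k)) =
            π e ^ ((d - 1) * k) * π P * π (pderiv 0 F) ^ k := by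
          rw [map_mul (gr n F), map_mul π, hgen _ P hP, map_pow (gr n F), map_pow π, h1]
        rw [← hπ0, map_sub π, h2, h3]
        ring

end Pool.Agent.TH45.J3512
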