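import Mathlib

/-!
# Intermediate values in windows (job 4502 of helper949)
-/

set_option autoImplicit false

open MeasureTheory Set Filter Topology

namespace Pool.Agent.TH45.J4502

/-- a discrete intermediate value theorem -/
theorem ivt_up (h : ℕ → ℝ) {c ε : ℝ} (hε : 0 < ε) {a b : ℕ} (hab : a ≤ b) :
    (∀ n, a ≤ n → n < b → |h (n + 1) - h n| < ε) → c - 2 * ε < h a → h b < c + 2 * ε →
      ∃ n, a ≤ n ∧ n ≤ b ∧ |h n - c| < 3 * ε := by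
  induction b, hab using Nat.le_induction with
  | base =>
    intro _ h1 h2
    refine ⟨a, le_rfl, le_rfl, ?_⟩
    rw [abs_lt]
    constructor <;> linarith
  | succ b hab ih =>
    intro hs h1 h2
    by_cases h3 : h b < c + 2 * ε
    · obtain ⟨n, h4, h5, h6⟩ := ih (fun n hn hn' => hs n hn (by omega)) h1 h3
      exact ⟨n, h4, by omega, h6⟩
    · have h4 := abs_lt.1 (hs b hab (by omega))
      refine ⟨b + 1, by omega, le_rfl, ?_⟩
      rw [abs_lt]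
      constructor <;> linarith [h4.1, not_lt.1 h3]

theorem t_ivt_window {g : ℝ → ℝ}
    (h1 : Tendsto (fun n : ℕ => g ((n + 1 : ℕ) : ℝ) - g (n : ℝ)) atTop (𝓝 0))
    (h2 : Tendsto (fun x : ℝ => g x - g (⌊x⌋₊ : ℝ)) atTop (𝓝 0)) {δ δ' : ℝ} (hδ : 0 < δ) (hδ' : δ < δ')
    (hδ1 : δ' ≤ 1) {c ε : ℝ} (hε : 0 < ε)
    (hup : ∀ᶠ X : ℝ in atTop, ∃ x : ℝ, X ^ (1 - δ) ≤ x ∧ x ≤ X ∧ c - ε < g x)
    (hlo : ∀ᶠ X : ℝ in atTop, ∃ x : ℝ, X ^ (1 - δ) ≤ x ∧ x ≤ X ∧ g x < c + ε) :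
    ∀ᶠ X : ℝ in atTop, ∃ x : ℝ, X ^ (1 - δ') ≤ x ∧ x ≤ X ∧ |g x - c| < 3 * ε := by
  have e1 : ∀ᶠ n : ℕ in atTop, |g ((n + 1 : ℕ) : ℝ) - g (n : ℝ)| < ε := by
    have := h1.eventually (Metric.ball_mem_nhds (0 : ℝ) hε)
    filter_upwards [this] with n hn
    rwa [dist_zero_right, Real.norm_eq_abs] at hn
  have e2 : ∀ᶠ x : ℝ in atTop, |g x - g (⌊x⌋₊ : ℝ)| < ε := by
    have := h2.eventually (Metric.ball_mem_nhds (0 : ℝ) hε)
    filter_upwards [this] with n hn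
    rwa [dist_zero_right, Real.norm_eq_abs] at hn
  obtain ⟨N, hN⟩ := eventually_atTop.1 e1
  obtain ⟨R, hR⟩ := eventually_atTop.1 e2
  have t1 : Tendsto (fun X : ℝ => X ^ (1 - δ)) atTop atTop := tendsto_rpow_atTop (by linarith)
  have t2 : Tendsto (fun X : ℝ => X ^ (δ' - δ)) atTop atTop := tendsto_rpow_atTop (by linarith)
  filter_upwards [hup, hlo, t1.eventually_ge_atTop (max R (N + 1)), t2.eventually_ge_atTop 2,
    eventually_ge_atTop 1] with X hup hlo hX1 hX2 hX3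
  obtain ⟨x1, hx1, hx1', hg1⟩ := hup
  obtain ⟨x2, hx2, hx2', hg2⟩ := hlo
  have hX0 : 0 < X := by linarith
  have k1 : 1 ≤ X ^ (1 - δ') := Real.one_le_rpow hX3 (by linarith)
  have k2 : X ^ (1 - δ') + 1 ≤ X ^ (1 - δ) := by
    have h3 : X ^ (1 - δ) = X ^ (1 - δ') * X ^ (δ' - δ) := by
      rw [← Real.rpow_add hX0]
      congr 1
      ring
    rw [h3]
    nlinarith
  -- the integer parts
  have key : ∀ x : ℝ, X ^ (1 - δ) ≤ x → x ≤ X → N ≤ ⌊x⌋₊ ∧ X ^ (1 - δ') ≤ (⌊x⌋₊ : ℝ) ∧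
      (⌊x⌋₊ : ℝ) ≤ X ∧ |g x - g (⌊x⌋₊ : ℝ)| < ε := by
    intro x hx hx'
    have hx0 : 0 ≤ x := by linarith
    have h3 : (⌊x⌋₊ : ℝ) ≤ x := Nat.floor_le hx0
    have h4 : x < (⌊x⌋₊ : ℝ) + 1 := Nat.lt_floor_add_one x
    refine ⟨?_, by linarith, by linarith, hR x ((le_max_left _ _).trans (hX1.trans hx))⟩
    have h5 : ((N : ℝ) + 1) ≤ x := (le_max_right _ _).trans (hX1.trans hx)
    have h6 : (N : ℝ) < (⌊x⌋₊ : ℝ) + 1 := by linarith
    have h7 : N < ⌊x⌋₊ + 1 := by exact_mod_cast h6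
    omega
  obtain ⟨a1, a2, a3, a4⟩ := key x1 hx1 hx1'
  obtain ⟨b1, b2, b3, b4⟩ := key x2 hx2 hx2'
  have a5 := abs_lt.1 a4
  have b5 := abs_lt.1 b4
  set n1 := ⌊x1⌋₊ with hn1
  set n2 := ⌊x2⌋₊ with hn2
  have hfin : ∀ n : ℕ, (n1 ≤ n ∨ n2 ≤ n) → (n ≤ n1 ∨ n ≤ n2) →
      X ^ (1 - δ') ≤ (n : ℝ) ∧ (n : ℝ) ≤ X := by
    intro n h3 h4
    constructor
    · rcases h3 with h3 | h3
      · have : (n1 : ℝ) ≤ n := by exact_mod_cast h3
        linarith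
      · have : (n2 : ℝ) ≤ n := by exact_mod_cast h3
        linarith
    · rcases h4 with h4 | h4
      · have : (n : ℝ) ≤ n1 := by exact_mod_cast h4
        linarith
      · have : (n : ℝ) ≤ n2 := by exact_mod_cast h4
        linarith
  rcases le_total n1 n2 with h12 | h12
  · obtain ⟨n, c1, c2, c3⟩ := ivt_up (fun n : ℕ => g (n : ℝ)) (c := c) hε h12
      (fun n hn _ => hN n (by omega)) (by linarith [a5.2]) (by linarith [b5.1])
    obtain ⟨d1, d2⟩ := hfin n (Or.inl c1) (Or.inr c2)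
    exact ⟨n, d1, d2, c3⟩
  · obtain ⟨n, c1, c2, c3⟩ := ivt_up (fun n : ℕ => -g (n : ℝ)) (c := -c) hε h12
      (fun n hn _ => by
        have := hN n (by omega)
        rw [← abs_neg] at this
        convert this using 2
        ring) (by linarith [b5.1]) (by linarith [a5.2])
    obtain ⟨d1, d2⟩ := hfin n (Or.inr c1) (Or.inl c2)
    refine ⟨n, d1, d2, ?_⟩
    rw [← abs_neg] at c3
    convert c3 using 2
    ring

end Pool.Agent.TH45.J4502
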